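import Pool.Agent.W944.En.Sharp

set_option autoImplicit false

/-!
# Outputs which merely determine the product

Definitions: `Lin`, `Lin.val` are in `Pool.Agent.W966.Mm.Tree`; `Ent`, `entries` in
`Pool.Agent.W966.Mm.RankErr`; `ETree`, `ETree.Can` in `Pool.Agent.W944.En.Tree`; `ptoc`, `Related`
in `Pool.Agent.W944.En.Hint`; `vals` in `Pool.Agent.W944.En.Det`; `Determines`, `CanRelate`,
`allEntries` in `Pool.Agent.W944.En.Main`; `encCost` in `Pool.Agent.W944.En.Sharp`; `HasRank`,
`rk`, `omega` in `Pool.Agent.H515R2.MMR.Rank`.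
-/

namespace Pool.Agent.Results.MP_e72dc0_lc.Bottleneck

open Pool.Agent.H515R2.MMR Pool.Agent.W966.Mm Pool.Agent.W944.En

/-- A probabilistic algorithm `t : ETree k n s` over the field `k` gets two `n × n` matrices `A, B`;
it makes field operations (linear combinations are free), tests for equality, random choices and
(only in (5), (6)) queries, and outputs `s` elements of `k`. `Determines t g L` says that the output
determines the values at the entries of `A B` of the polynomials `g 1, …, g K`, up to countably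
many possibilities: there is a function `dec`, which need not be computable and whose values are
countable sets, such that for all `A, B` outside the zero set of a nonzero polynomial every
possible output `o` (of a run with at most `L` multiplications and divisions) satisfies
`g (A B) ∈ dec o`, and there is such an output. `allEntries n` are the `n ^ 2` entries themselves,
`rk n` is the rank of the `n × n` matrix multiplication tensor over `ℂ`, `omega` its exponent.

Let `k = ℂ` in (1)-(4), and let the output of `t` determine `A B` in (1), (2).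
(1) If `m ≤ n` and `s < n ^ 2 + (n - m + 1) ^ 2`, then `m × m` matrix multiplication has rank at
most `2 L`; in particular `rk n ≤ 2 L` if `s ≤ n ^ 2`.
(2) If `s ≤ (2 - ε) n ^ 2`, `ε > 0`, then `rk n ≤ 2 (2 / ε + 1) ^ 3 L`.
(3) So for `0 < ε ≤ 1` the least number of multiplications and divisions by which at most
`(2 - ε) n ^ 2` numbers can be computed that determine `A B` equals `rk n` up to a constant factor
which depends only on `ε`.
(4) If the output determines the values of `K` algebraically independent polynomials in the entries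
of `A B` and `s + 3 q n < 2 K`, then `(q + 1) ^ omega ≤ 2 L`.
(5) Let `k` be any field which embeds into `ℂ` and let `t` make at most `Q` queries, whose answers
are elements of `k` about which nothing is assumed (the most helpful ones are allowed). Suppose
that for all `A, B` outside the zero set of a nonzero polynomial `t` can output a vector `o` which
satisfies together with the matrix `A B` `K` fixed polynomial relations whose matrix of partial
derivatives with respect to the entries of `A B` has rank `K` at this point. If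
`s + Q + 3 q n < 2 K`, then `(q + 1) ^ omega ≤ 2 L`.
(6) If, for some `ε > 0` and infinitely many `n`, an algorithm as in (4) with `s ≤ 2 K - ε n ^ 2`
or an algorithm as in (5) with `s + Q ≤ 2 K - ε n ^ 2` makes at most `D n ^ τ` multiplications and
divisions, then `omega ≤ τ`.
(7) The bound `(2 - ε) n ^ 2` cannot be replaced by `2 n ^ 2`: for `s = 2 n ^ 2` there is an
algorithm without multiplications and divisions, and for `s = Q = K = n ^ 2` in (5). -/
theorem result :
    (∀ (n s m L : ℕ) (t : ETree ℂ n s), Determines t (allEntries n) L → m ≤ n →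
      s < n ^ 2 + (n - m + 1) ^ 2 → HasRank m (2 * L)) ∧
    (∀ (n s L : ℕ) (ε : ℝ) (t : ETree ℂ n s), 0 < ε → Determines t (allEntries n) L →
      (s : ℝ) ≤ (2 - ε) * (n : ℝ) ^ 2 → (rk n : ℝ) ≤ 2 * (2 / ε + 1) ^ 3 * L) ∧
    (∀ (ε : ℝ) (n : ℕ), 0 < ε → ε ≤ 1 → encCost ε n ≤ rk n ∧
      (rk n : ℝ) ≤ 2 * (2 / ε + 1) ^ 3 * encCost ε n) ∧
    (∀ (n s K L q : ℕ) (t : ETree ℂ n s) (g : Fin K → MvPolynomial (Fin n × Fin n) ℂ),
      AlgebraicIndependent ℂ g → Determines t g L → s + 3 * q * n < 2 * K →
      ((q : ℝ) + 1) ^ omega ≤ 2 * L) ∧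
    (∀ (k : Type) [Field k] (_ : k →+* ℂ) (n s K L Q q : ℕ) (t : ETree k n s)
      (R : Fin K → MvPolynomial (Fin s ⊕ Fin n × Fin n) k), CanRelate t R L Q →
      s + Q + 3 * q * n < 2 * K → ((q : ℝ) + 1) ^ omega ≤ 2 * L) ∧
    (∀ ε τ D : ℝ, 0 < ε → (∀ N : ℕ, ∃ n : ℕ, N ≤ n ∧ ∃ L : ℕ, (L : ℝ) ≤ D * (n : ℝ) ^ τ ∧
      ((∃ (s K : ℕ) (t : ETree ℂ n s) (g : Fin K → MvPolynomial (Fin n × Fin n) ℂ),
        AlgebraicIndependent ℂ g ∧ Determines t g L ∧
        (s : ℝ) + ε * (n : ℝ) ^ 2 ≤ 2 * K) ∨
      ∃ (k : Type) (_ : Field k) (_ : k →+* ℂ) (s K Q : ℕ) (t : ETree k n s)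
        (R : Fin K → MvPolynomial (Fin s ⊕ Fin n × Fin n) k), CanRelate t R L Q ∧
        (s : ℝ) + Q + ε * (n : ℝ) ^ 2 ≤ 2 * K)) → omega ≤ τ) ∧
    (∀ n : ℕ, ∃ (s : ℕ) (t : ETree ℂ n s), s = 2 * n ^ 2 ∧ Determines t (allEntries n) 0) ∧
    (∀ (k : Type) [Field k] (n : ℕ), ∃ (s K Q : ℕ) (t : ETree k n s)
      (R : Fin K → MvPolynomial (Fin s ⊕ Fin n × Fin n) k), s = n ^ 2 ∧ K = n ^ 2 ∧ Q = n ^ 2 ∧
      CanRelate t R 0 Q) :=
  ⟨fun _ _ _ _ t h hm hs => determine_rank t h hm hs,
    fun _ _ _ _ t hε h hs => determine_rk hε t h hs,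
    fun _ n hε hε1 => encCost_bounds hε hε1 n,
    fun _ _ _ _ _ t g hg h hd => determine_bound t g hg h hd,
    fun _ _ σ _ _ _ _ _ _ t R ⟨P, hP, H⟩ hd => hint_bound σ t R P hP H hd,
    fun _ _ _ hε H => both_asym hε H,
    encode_input, fun k _ n => hint_sharp k n⟩

end Pool.Agent.Results.MP_e72dc0_lc.Bottleneck
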