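import Pool.Agent.W966.Mm.ConstAsym
import Pool.Agent.W966.Mm.FamReal
import Pool.Agent.W966.Mm.Sharp

set_option autoImplicit false

/-!
# Matrix products with queries or on families: constant factors

Definitions: `Lin`, `Lin.val`, `QTree`, `QTree.CanOutput` are in `Pool.Agent.W966.Mm.Tree`, `Ent`,
`entries` in `Pool.Agent.W966.Mm.RankErr`, `AgreeIn` in `Pool.Agent.W966.Mm.Agree`, `fam` in
`Pool.Agent.W966.Mm.Core`, `InEntries` in `Pool.Agent.W966.Mm.ConstAsym`, `ProductsOn` in
`Pool.Agent.W966.Mm.FamReal`, `HasRank`, `rk` in `Pool.Agent.H515R2.MMR.Rank`.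
-/

namespace Pool.Agent.Results.MP_e72dc0_lc.ConstantFactors

open Pool.Agent.H515R2.MMR Pool.Agent.W966.Mm

/-- Let `k` be a field which embeds into `ℂ` (for instance `ℚ`). A probabilistic algorithm with
queries makes field operations, tests for equality, random choices and queries; the answer to a
query is an element of `k` about which nothing is assumed (the most helpful one is allowed).
`rk n` is the rank of the tensor of `n × n` matrix multiplication over `ℂ`.

(1), (2): on all pairs `A, B` of `n × n` matrices in general position the algorithm can (for some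
outcomes of the random choices and some answers), with `L` multiplications and divisions and `Q`
queries, output a matrix which agrees with `A B` in at least `K ≤ n ^ 2` entries.
(1) If `Q + n ^ 2 < (n - m + 1) ^ 2 + K`, `m ≤ n`, then `m × m` matrix multiplication has rank at
most `2 L`. (2) If `K - Q ≥ ε n ^ 2` then `rk n ≤ 2 (2 / ε + 1) ^ 3 L`.

(3), (4): for all pairs `A, B` in general position in some affine space of pairs of dimension `d`
the algorithm can output `A B`, with `L` multiplications and divisions and no queries.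
(3) If `2 n ^ 2 < d + (n - m + 1) ^ 2`, `m ≤ n`, then `m × m` matrix multiplication has rank at most
`2 L`. (4) If `d ≥ (1 + ε) n ^ 2` then `rk n ≤ 2 (2 / ε + 1) ^ 3 L`.

(5) For every `Q ≤ n ^ 2` there is an algorithm as in (1) with `Q` queries and without any
multiplication or division for `K = Q`. -/
theorem result :
    (∀ (k : Type) [Field k] (_ : k →+* ℂ) (n m L Q K : ℕ) (t : QTree k n), m ≤ n → K ≤ n ^ 2 →
      Q + n ^ 2 < (n - m + 1) ^ 2 + K → InEntries t L Q K → HasRank m (2 * L)) ∧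
    (∀ (k : Type) [Field k] (_ : k →+* ℂ) (n L Q K : ℕ) (ε : ℝ) (t : QTree k n), 0 < ε →
      K ≤ n ^ 2 → ε * (n : ℝ) ^ 2 + Q ≤ K → InEntries t L Q K →
      (rk n : ℝ) ≤ 2 * (2 / ε + 1) ^ 3 * L) ∧
    (∀ (k : Type) [Field k] (_ : k →+* ℂ) (n m d L : ℕ) (t : QTree k n)
      (A₀ B₀ : Matrix (Fin n) (Fin n) k) (a b : Fin d → Matrix (Fin n) (Fin n) k),
      (LinearIndependent k fun i => (a i, b i)) → m ≤ n → 2 * n ^ 2 < d + (n - m + 1) ^ 2 →
      ProductsOn t A₀ B₀ a b L → HasRank m (2 * L)) ∧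
    (∀ (k : Type) [Field k] (_ : k →+* ℂ) (n d L : ℕ) (ε : ℝ) (t : QTree k n)
      (A₀ B₀ : Matrix (Fin n) (Fin n) k) (a b : Fin d → Matrix (Fin n) (Fin n) k), 0 < ε →
      (LinearIndependent k fun i => (a i, b i)) → (1 + ε) * (n : ℝ) ^ 2 ≤ d →
      ProductsOn t A₀ B₀ a b L → (rk n : ℝ) ≤ 2 * (2 / ε + 1) ^ 3 * L) ∧
    (∀ (k : Type) [Field k] (n Q : ℕ), Q ≤ n ^ 2 → ∃ t : QTree k n, InEntries t 0 Q Q) :=
  ⟨fun _ _ σ _ _ _ _ _ t hm hK hdim ⟨P, hP, H⟩ => query_const σ hm hK t P hP H hdim,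
    fun _ _ σ _ _ _ _ _ t hε hK hd h => query_const_real σ hε hK t h hd,
    fun _ _ σ _ _ _ _ t A₀ B₀ a b hind hm hdim ⟨P, hP, H⟩ =>
      fam_const σ hm A₀ B₀ a b hind t P hP H (by rwa [Fintype.card_fin]),
    fun _ _ σ _ _ _ _ t A₀ B₀ a b hε hind hd h => fam_const_real σ hε A₀ B₀ a b hind t h hd,
    fun k _ _ _ hQ => entries_sharp k hQ⟩

end Pool.Agent.Results.MP_e72dc0_lc.ConstantFactors
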