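import Pool.Agent.W966.Vf.Final

set_option autoImplicit false

/-!
# Matrix products with unreliable hints, and verification without false acceptance

Definitions: `Lin`, `Lin.val`, `QTree`, `QTree.CanOutput` are in `Pool.Agent.W966.Mm.Tree`, `Ent`,
`entries` in `Pool.Agent.W966.Mm.RankErr`, `AgreeIn` in `Pool.Agent.W966.Mm.Agree`, `DenseFor`,
`Outputs` in `Pool.Agent.W966.Vf.Gen`, `vecM`, `Accepts` in `Pool.Agent.W966.Vf.Verif`, `Reliable`,
`ReliableList`, `Verifies`, `VerifiesList` in `Pool.Agent.W966.Vf.Final`, `omega` in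
`Pool.Agent.H515R2.MMR.Rank`.
-/

namespace Pool.Agent.Results.MP_e72dc0_lc.HintsUnreliable

open Pool.Agent.H515R2.MMR Pool.Agent.W966.Mm Pool.Agent.W966.Vf

/-- Let `K` be an algebraically closed field of characteristic `0`. A probabilistic algorithm with
queries makes field operations, tests for equality, random choices and queries. Here it may make any
number of queries, and nothing is assumed about the answers (unreliable hints, guesses);
`Outputs t A B Q a L` is the set of all matrices which it can output on the input `A, B` with the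
advice `a 0, …, a (Q - 1)`, for all outcomes of the random choices and all answers, in runs with at
most `L` multiplications and divisions.

(1) Suppose that for a Zariski dense set of pairs `A, B` there is an advice of `Q` field elements
such that some output is possible and every possible output agrees with `A B` in at least `κ`
entries. If `Q + n ^ 2 < (n - m + 1) ^ 2 + κ`, `0 < m ≤ n`, then `m ^ ω ≤ 2 L`.
(2) If `κ - Q ≥ ε n ^ 2` then `(ε n / 2) ^ ω ≤ 2 L`.
(3) The same if, for a dense set of pairs and suitable advice, `A B` is a possible output and there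
are `M` matrices such that every possible output agrees with one of them in at least `κ` entries
(`M` is any number which does not depend on `A, B`).
(4) Verification: a procedure gets `A, B, C` (the entries of `C` are in its registers) and makes
random choices and any number of guesses. If for a dense set of pairs it can accept `A, B, A B`,
and every `C` such that it can accept `A, B, C` is `A B`, then `n ^ ω ≤ 2 L`.
(5) More generally, `m ^ ω ≤ 2 L` if it can accept `A, B, A B` and every `C` which it can accept
agrees with one of `M` matrices in at least `κ` entries, `n ^ 2 < (n - m + 1) ^ 2 + κ`.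
(6) In (1), `κ = Q` is possible with `L = 0` for every `Q ≤ n ^ 2`. -/
theorem result :
    (∀ (K : Type) [Field K] [IsAlgClosed K] [CharZero K] (n m Q κ L : ℕ) (t : QTree K n),
      0 < m → m ≤ n → Q + n ^ 2 < (n - m + 1) ^ 2 + κ → Reliable t Q κ L →
      (m : ℝ) ^ omega ≤ 2 * L) ∧
    (∀ (K : Type) [Field K] [IsAlgClosed K] [CharZero K] (n Q κ L : ℕ) (ε : ℝ) (t : QTree K n),
      0 < ε → 0 < n → κ ≤ n ^ 2 → ε * (n : ℝ) ^ 2 + Q ≤ κ → Reliable t Q κ L →
      (ε / 2 * n) ^ omega ≤ 2 * L) ∧
    (∀ (K : Type) [Field K] [IsAlgClosed K] [CharZero K] (n m Q κ L M : ℕ) (t : QTree K n),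
      0 < m → m ≤ n → Q + n ^ 2 < (n - m + 1) ^ 2 + κ → ReliableList t Q κ L M →
      (m : ℝ) ^ omega ≤ 2 * L) ∧
    (∀ (K : Type) [Field K] [IsAlgClosed K] [CharZero K] (n L : ℕ) (t : QTree K n), 0 < n →
      Verifies t L → (n : ℝ) ^ omega ≤ 2 * L) ∧
    (∀ (K : Type) [Field K] [IsAlgClosed K] [CharZero K] (n m κ L M : ℕ) (t : QTree K n),
      0 < m → m ≤ n → n ^ 2 < (n - m + 1) ^ 2 + κ → VerifiesList t κ L M →
      (m : ℝ) ^ omega ≤ 2 * L) ∧
    (∀ (K : Type) [Field K] (n Q : ℕ), Q ≤ n ^ 2 → ∃ t : QTree K n,
      ∀ A B : Matrix (Fin n) (Fin n) K, ∃ a : ℕ → K,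
        (Outputs t A B Q a 0).Nonempty ∧ ∀ C ∈ Outputs t A B Q a 0, AgreeIn Q C (A * B)) := by
  refine ⟨fun K _ _ _ n m Q κ L t hm0 hm hdim H => sound_bound t hm0 hm hdim H,
    fun K _ _ _ n Q κ L ε t hε hn hκ hd H => real_bound hε hn hκ hd fun m h1 h2 h3 =>
      sound_bound t h1 h2 h3 H,
    fun K _ _ _ n m Q κ L M t hm0 hm hdim H => list_bound t hm0 hm hdim H,
    fun K _ _ _ n L t hn H => ?_,
    fun K _ _ _ n m κ L M t hm0 hm hdim H => verif_bound t hm0 hm hdim H,
    fun K _ n Q hQ => advice_sharp K n Q hQ⟩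
  refine verif_bound (M := 1) (κ := n ^ 2) t hn le_rfl (by simp) (fun p hp => ?_)
  obtain ⟨A, B, h1, h2, h3⟩ := H p hp
  exact ⟨A, B, h1, h2, fun _ => A * B, fun C hC => ⟨0, by
    rw [h3 C hC]
    exact agree_self _ le_rfl⟩⟩

end Pool.Agent.Results.MP_e72dc0_lc.HintsUnreliable
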