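import Pool.Agent.W956.KF.Explicit
import Pool.Agent.W956.KF.RatFun

set_option autoImplicit false

/-!
# Multiplying by a matrix which is known in advance is as hard as multiplying two matrices

Circuits (`Circuit`, `Circuit.poly`, `Circuit.nonscalarCount`, `Circuit.size`) are defined in
`Pool.Agent.H522R2.Circuit`, the explicit matrices `expMat` in `Pool.Agent.W956.FF.Explicit`,
everything else in `Pool.Agent.W956.KF.Defs`.
-/

namespace Pool.Agent.Results.MP_e72dc0_lc.KnownFactor

open Pool.Agent.H522R2 Pool.Agent.W956.KF
open Pool.Agent.W956.FF (expMat algebraicIndependent_expMat)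

/-- `trank K m n p` is the rank of the tensor of the multiplication of `m × n` by `n × p` matrices.

(1) Let `B` be an `n × p` matrix over a field `K` of characteristic 0 whose entries are
algebraically independent over a subfield `k`. A circuit over `K` which computes the entries of
`A B`, where the entries of the `m × n` matrix `A` are variables, has at least `trank K m n p` live
pairs, so `trank K m n p ≤ s + 2 N` for its numbers `s` and `N` of scalar and nonscalar
multiplications. A circuit which computes the single polynomial `tr (A B C)` (the entries of `A` and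
`C` are variables) has `trank K m n p ≤ 2 s + 6 N`.

(2) For circuits of size at most `t` the same holds for all matrices `B` over `K` outside the zero
set of a nonzero polynomial with rational coefficients.

(3) There are integer matrices `B_m` for which all of `S(tr (A B_m C))`, `S(A B_m)` and
`S_K(MM_m)` are at least a constant times the rank of `m × m` matrix multiplication and have the
exponent of matrix multiplication as growth exponent; and superlinear lower bounds in the sense of
the question for the three are equivalent.

(4) The same as (1) for the generic matrix over an infinite field `F` of any characteristic and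
circuits which use rational functions of the entries of the generic matrix as constants.

(5) In the situation of (1) there are at least `(3 - ε) m ^ 2` live pairs if `m = n = p` is large.

(6) Over `ℂ` the statements of (3) also hold for the explicit real matrices `expMat m` with the
entries `exp (2 ^ ((m j + k) / m ^ 2))`, `0 ≤ j, k < m`, which are algebraically independent over
`ℚ`. So the question over `ℂ` is whether there is a superlinear lower bound for the explicit
quadratic forms `tr (A E_m C)`, in `2 m ^ 2` variables, or for the multiplication by the explicit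
matrices `E_m`. -/
theorem result :
    (∀ (k K : Type) [Field k] [CharZero k] [Field K] [Algebra k K] (m n p : ℕ)
      (B : Matrix (Fin n) (Fin p) K),
      AlgebraicIndependent k (fun x : Fin n × Fin p => B x.1 x.2) →
      (∀ C : Circuit K (Fin m × Fin n), ComputesKnown C B →
        trank K m n p ≤ liveCount k C ∧
          liveCount k C ≤ scalarCount C + 2 * C.nonscalarCount) ∧
      (∀ C : Circuit K ((Fin m × Fin n) ⊕ (Fin p × Fin m)), ComputesForm C B →
        trank K m n p ≤ 2 * scalarCount C + 6 * C.nonscalarCount)) ∧
    (∀ (K : Type) [Field K] [CharZero K] (m n p t : ℕ),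
      ∃ H : MvPolynomial (Fin n × Fin p) ℚ, H ≠ 0 ∧ ∀ B : Matrix (Fin n) (Fin p) K,
        MvPolynomial.aeval (fun x : Fin n × Fin p => B x.1 x.2) H ≠ 0 →
        (∀ C : Circuit K (Fin m × Fin n), ComputesKnown C B → C.size ≤ t →
          trank K m n p ≤ scalarCount C + 2 * C.nonscalarCount) ∧
        (∀ C : Circuit K ((Fin m × Fin n) ⊕ (Fin p × Fin m)), ComputesForm C B → C.size ≤ t →
          trank K m n p ≤ 2 * scalarCount C + 6 * C.nonscalarCount)) ∧
    (∀ (K : Type) [Field K] [CharZero K], ∃ B : ∀ m : ℕ, Matrix (Fin m) (Fin m) ℤ,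
      (∀ m, trank K m m m ≤ 2 * sizeKnown m (intMat K (B m)) ∧
        trank K m m m ≤ 6 * sizeForm m (intMat K (B m)) ∧
        sizeForm m (intMat K (B m)) ≤ sizeKnown m (intMat K (B m)) + 2 * m ^ 2 ∧
        sizeKnown m (intMat K (B m)) ≤ sizeMM K m) ∧
      growth (fun m => sizeForm m (intMat K (B m))) = omega K ∧
      growth (fun m => sizeKnown m (intMat K (B m))) = omega K ∧
      growth (sizeMM K) = omega K ∧
      (Superlinear (sizeMM K) ↔ Superlinear (fun m => sizeForm m (intMat K (B m)))) ∧
      (Superlinear (sizeMM K) ↔ Superlinear (fun m => sizeKnown m (intMat K (B m)))) ∧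
      (Superlinear (sizeMM K) ↔ 2 < omega K) ∧
      (∀ τ D : ℝ, {m : ℕ | (sizeForm m (intMat K (B m)) : ℝ) ≤ D * (m : ℝ) ^ τ}.Infinite →
        omega K ≤ τ)) ∧
    (∀ (F : Type) [Field F] [Infinite F] (m n p : ℕ),
      (∀ C : Circuit (FractionRing (MvPolynomial (Fin n × Fin p) F)) (Fin m × Fin n),
        ComputesKnown C (generic F n p) →
        trank F m n p ≤ scalarCount C + 2 * C.nonscalarCount) ∧
      (∀ C : Circuit (FractionRing (MvPolynomial (Fin n × Fin p) F))
        ((Fin m × Fin n) ⊕ (Fin p × Fin m)), ComputesForm C (generic F n p) →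
        trank F m n p ≤ 2 * scalarCount C + 6 * C.nonscalarCount)) ∧
    (∀ ε : ℝ, 0 < ε → ∃ m₀ : ℕ, ∀ (k K : Type) [Field k] [CharZero k] [Field K] [Algebra k K]
      (m : ℕ) (B : Matrix (Fin m) (Fin m) K),
      m₀ ≤ m → AlgebraicIndependent k (fun x : Fin m × Fin m => B x.1 x.2) →
      ∀ C : Circuit K (Fin m × Fin m), ComputesKnown C B →
        (3 - ε) * (m : ℝ) ^ 2 ≤ liveCount k C) ∧
    ((∀ m : ℕ, AlgebraicIndependent ℚ (fun x : Fin m × Fin m => expMat m x.1 x.2)) ∧
      (∀ m : ℕ, trank ℂ m m m ≤ 2 * sizeKnown m (expMat m) ∧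
        trank ℂ m m m ≤ 6 * sizeForm m (expMat m) ∧
        sizeForm m (expMat m) ≤ sizeKnown m (expMat m) + 2 * m ^ 2 ∧
        sizeKnown m (expMat m) ≤ sizeMM ℂ m) ∧
      growth (fun m => sizeForm m (expMat m)) = omega ℂ ∧
      growth (fun m => sizeKnown m (expMat m)) = omega ℂ ∧
      (Superlinear (sizeMM ℂ) ↔ Superlinear (fun m => sizeForm m (expMat m))) ∧
      (Superlinear (sizeMM ℂ) ↔ Superlinear (fun m => sizeKnown m (expMat m))) ∧
      (∀ τ D : ℝ, {m : ℕ | (sizeForm m (expMat m) : ℝ) ≤ D * (m : ℝ) ^ τ}.Infinite →
        omega ℂ ≤ τ)) := by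
  refine ⟨?_, ?_, ?_, ?_, ?_, algebraicIndependent_expMat, ?_⟩
  · intro k K _ _ _ _ m n p B hB
    exact ⟨fun C hC => ⟨trank_le (part_one B hB C hC), live_le_act C⟩,
      fun C hC => trank_le (part_one_form B hB C hC)⟩
  · intro K _ _ m n p t
    obtain ⟨H1, hH1, h1⟩ := part_two K m n p t
    obtain ⟨H2, hH2, h2⟩ := part_two_form K m n p t
    refine ⟨H1 * H2, mul_ne_zero hH1 hH2, fun B hB => ?_⟩
    rw [map_mul] at hB
    exact ⟨fun C hC ht => h1 B (left_ne_zero_of_mul hB) C hC ht,
      fun C hC ht => h2 B (right_ne_zero_of_mul hB) C hC ht⟩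
  · intro K _ _
    rw [omega_eq]
    exact part_three K
  · intro F _ _ m n p
    exact ⟨fun C hC => trank_le (part_rat C hC), fun C hC => trank_le (part_rat_form C hC)⟩
  · intro ε hε
    obtain ⟨m₀, h₀⟩ := trank_eventually ε hε
    refine ⟨m₀, fun k K _ _ _ _ m B hm hB C hC => ?_⟩
    have hK : CharZero K := charZero_of_injective_algebraMap (algebraMap k K).injective
    refine (h₀ K m hm).trans ?_
    exact_mod_cast trank_le (part_one B hB C hC)
  · rw [omega_eq]
    exact explicit_part

end Pool.Agent.Results.MP_e72dc0_lc.KnownFactor
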