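import Mathlib
import Pool.Agent.W463.VB.Main

set_option autoImplicit false

/-!
Matrix multiplication by circuits with limited cancellation needs `m² log m` additions.

The variables are `a x = Sum.inl x` and `b y = Sum.inr y`, `x, y ∈ Fin m × Fin m`. `linMass Φ y v`
is the sum of the absolute values of the terms at the node `v`, before cancellation, in which
`b y` occurs exactly once and no other variable `b y'` occurs. `joinGates Φ` is the set of the
gates for which both inputs have such terms (for some `y`).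
-/

namespace Pool.Agent.Results.MP_e72dc0_lc.LimitedCancellation

open MvPolynomial Finset
open Pool.Agent.H567.Nec Pool.Agent.H691R2.MM
open Pool.Agent.W463.VB

/-- **Main theorem.** -/
theorem result (m : ℕ) (hm : 2 ≤ m)
    (Φ : Circuit ℂ ((Fin m × Fin m) ⊕ (Fin m × Fin m))) (o : Fin m → Fin m → Fin Φ.N)
    (ho : ∀ i l, Φ.value (o i l) = ∑ j, X (Sum.inl (i, j)) * X (Sum.inr (j, l))) :
    (∀ K : Fin m → Fin m → ℝ, (∀ i l y, (linMass Φ y (o i l) : ℝ) ≤ K i l) →
      (m : ℝ) ^ (m ^ 2) ≤ 4 ^ (joinGates Φ).card * (∏ i, ∏ l, K i l) ^ 2) ∧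
    (∀ ε : ℝ, (∀ i l y, (linMass Φ y (o i l) : ℝ) ≤ (m : ℝ) ^ (1 / 2 - ε)) →
      ε * m ^ 2 * Real.logb 2 m ≤ (joinGates Φ).card) :=
  ⟨fun K hK => mm_bound m (by omega) Φ o ho K hK, fun ε hK => mm_log m hm Φ o ho ε hK⟩

end Pool.Agent.Results.MP_e72dc0_lc.LimitedCancellation
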