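import Pool.Agent.W946.KosFin

set_option autoImplicit false

/-!
# Multiplying `m × m` matrices takes `(3 - o(1)) m²` nonscalar multiplications over every field

Circuits (`Circuit`, `Circuit.poly`, `Circuit.nonscalarCount`, `Circuit.mulCount`, `Circuit.size`)
are defined in `Pool.Agent.H522R2.Circuit`; the variables `Vars m` and the entries `entry F m i j`
of the product of two generic `m × m` matrices in `Pool.Agent.H88R3.MM.Circ`.
-/

namespace Pool.Agent.Results.MP_e72dc0_lc.NonscalarThree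

open Pool.Agent.H88R3.MM Pool.Agent.H522R2 Pool.Agent.W946.Kos

/-- the circuit has the entries of the product of two generic `m × m` matrices among the
polynomials which it computes -/
def Computes {F : Type*} [Field F] {m : ℕ} (C : Circuit F (Vars m)) : Prop :=
  ∀ i j, ∃ k : Fin C.nodes, C.poly k = entry F m i j

universe u

/-- Let `C` be an arithmetic circuit over a field `F` which computes the entries of the product of
two generic `m × m` matrices, and let `L` be the number of its nonscalar multiplications.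
Then `m ^ 2 + (2 p + 1) m q ≤ L + q (p + 1) (2 p + 1).choose p` whenever `q (p + 1) ≤ m`; for all
`p`, `(3 - 1 / (p + 1)) m ^ 2 ≤ L + (2 p + 4 ^ p) m`; if `m ≥ 2` then
`L ≥ 3 m ^ 2 - 4 m ^ 2 / log₂ m - 2 m ^ (3 / 2)`. In particular `L ≥ (3 - ε) m ^ 2` for all
`m ≥ m₀(ε)`. -/
theorem result :
    (∀ (F : Type u) [Field F] (m : ℕ) (C : Circuit F (Vars m)), Computes C →
      (∀ q p : ℕ, q * (p + 1) ≤ m →
        m ^ 2 + (2 * p + 1) * m * q ≤
          C.nonscalarCount + q * (p + 1) * (2 * p + 1).choose p) ∧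
      (∀ p : ℕ, (3 - 1 / ((p : ℝ) + 1)) * (m : ℝ) ^ 2 ≤
        C.nonscalarCount + (2 * p + 4 ^ p) * m) ∧
      (2 ≤ m → 3 * (m : ℝ) ^ 2 - 4 * (m : ℝ) ^ 2 / Real.logb 2 m - 2 * m * Real.sqrt m ≤
        C.nonscalarCount) ∧
      C.nonscalarCount ≤ C.mulCount ∧ C.mulCount ≤ C.size) ∧
    (∀ ε : ℝ, 0 < ε → ∃ m₀ : ℕ, ∀ (F : Type u) [Field F] (m : ℕ) (C : Circuit F (Vars m)),
      m₀ ≤ m → Computes C → (3 - ε) * (m : ℝ) ^ 2 ≤ C.nonscalarCount) :=
  ⟨fun _ _ _ C hC => ⟨fun q p hqp => circuit_bound C hC q p hqp, fun p => bound_p C hC p,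
    fun hm => bound_log C hC hm, C.nonscalarCount_le_mulCount, C.mulCount_le_size⟩,
    fun ε hε => bound_eventually ε hε⟩

end Pool.Agent.Results.MP_e72dc0_lc.NonscalarThree
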