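import Pool.Agent.W946.SzFin

set_option autoImplicit false

/-!
# Multiplying `m × m` matrices takes `(8 - o(1)) m²` gates over every field

Circuits (`Circuit`, `Circuit.poly`, `Circuit.size`) are defined in `Pool.Agent.H522R2.Circuit`;
the variables `Vars m` and the entries `entry F m i j` of the product of two generic `m × m`
matrices in `Pool.Agent.H88R3.MM.Circ`.
-/

namespace Pool.Agent.Results.MP_e72dc0_lc.SizeEight

open Pool.Agent.H88R3.MM Pool.Agent.H522R2 Pool.Agent.W946.Sz

/-- the circuit has the entries of the product of two generic `m × m` matrices among the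
polynomials which it computes -/
def Computes {F : Type*} [Field F] {m : ℕ} (C : Circuit F (Vars m)) : Prop :=
  ∀ i j, ∃ k : Fin C.nodes, C.poly k = entry F m i j

universe u

/-- Every arithmetic circuit over a field which computes the entries of the product of two generic
`m × m` matrices has at least `(8 - δ) m ^ 2` gates if `m ≥ m₀(δ)`; `m₀` does not depend on the
field. -/
theorem result (δ : ℝ) (hδ : 0 < δ) : ∃ m₀ : ℕ, ∀ (F : Type u) [Field F] (m : ℕ)
    (C : Circuit F (Vars m)), m₀ ≤ m → Computes C → (8 - δ) * (m : ℝ) ^ 2 ≤ C.size :=
  size_bound δ hδ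

end Pool.Agent.Results.MP_e72dc0_lc.SizeEight
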